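import Mathlib

set_option autoImplicit false

namespace Pool.Agent.H514R5

open Finset Topology

/-- The formula for the iterates of an affine unipotent map of an abelian group. -/
noncomputable def F {K : Type} [AddCommGroup K] (N : K →+ K) (s : ℕ) (x y : K) (n : ℤ) : K :=
  x + ∑ i ∈ range s, Ring.choose n (i + 1) • (N^[i] y)

theorem F_zero {K : Type} [AddCommGroup K] (N : K →+ K) (s : ℕ) (x y : K) : F N s x y 0 = x := by
  unfold F
  rw [sum_eq_zero, add_zero]
  intro i _
  rw [Ring.choose_zero_pos _ (by omega), zero_smul]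

theorem F_succ {K : Type} [AddCommGroup K] (N : K →+ K) (s : ℕ) (hs : 0 < s) (hN : ∀ y, N^[s] y = 0)
    (x α : K) (n : ℤ) : F N s x (N x + α) (n + 1) = F N s x (N x + α) n + N (F N s x (N x + α) n) + α := by
  set y := N x + α with hy
  unfold F
  have h1 : ∀ i, Ring.choose (n + 1) (i + 1) • (N^[i] y) =
      Ring.choose n i • (N^[i] y) + Ring.choose n (i + 1) • (N^[i] y) := by
    intro i
    rw [Ring.choose_succ_succ, add_smul]
  simp only [h1, sum_add_distrib]
  have h2 : N (x + ∑ i ∈ range s, Ring.choose n (i + 1) • (N^[i] y)) =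
      N x + ∑ i ∈ range s, Ring.choose n (i + 1) • (N^[i + 1] y) := by
    rw [map_add, map_sum]
    congr 1
    refine sum_congr rfl fun i _ => ?_
    rw [map_zsmul, Function.iterate_succ_apply']
  rw [h2]
  have h3 : ∑ i ∈ range s, Ring.choose n i • (N^[i] y) + Ring.choose n s • (N^[s] y) =
      ∑ i ∈ range s, Ring.choose n (i + 1) • (N^[i + 1] y) + y := by
    rw [← sum_range_succ (fun i => Ring.choose n i • (N^[i] y)), sum_range_succ']
    simp
  rw [hN y, smul_zero, add_zero] at h3
  rw [h3, hy]
  abel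

theorem iterate_eq {K : Type} [AddCommGroup K] (N : K →+ K) (s : ℕ) (hs : 0 < s) (hN : ∀ y, N^[s] y = 0)
    (α : K) (T : Equiv.Perm K) (hT : ∀ x, T x = x + N x + α) (x : K) (n : ℤ) :
    (T ^ n) x = F N s x (N x + α) n := by
  induction n using Int.induction_on with
  | zero => rw [F_zero]; rfl
  | succ n ih =>
    rw [F_succ N s hs hN, ← hT, ← ih, add_comm, zpow_add, zpow_one]; rfl
  | pred n ih =>
    apply T.injective
    have h1 := F_succ N s hs hN x α (-(n : ℤ) - 1)
    rw [← hT, sub_add_cancel, ← ih] at h1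
    rw [← h1, ← Equiv.Perm.mul_apply, ← zpow_one_add]
    congr 2
    ring

end Pool.Agent.H514R5
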