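import Mathlib
import Pool.Agent.H767R2.Weyl

set_option autoImplicit false

namespace Pool.Agent.H514R5

open Finset Filter Topology Polynomial Pool.Agent.H767R2

theorem ee_nat_mul (a : ℕ) (t : ℝ) : ee (a * t) = ee t ^ a := by
  rw [ee, ee, ← Complex.exp_nat_mul]; congr 1; push_cast; ring

theorem ee_sum {ι : Type} (s : Finset ι) (f : ι → ℝ) : ee (∑ i ∈ s, f i) = ∏ i ∈ s, ee (f i) := by
  classical
  induction s using Finset.induction_on with
  | empty => simp [ee_zero]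
  | insert a s ha ih => rw [sum_insert ha, prod_insert ha, ee_add, ih]

/-- coefficient -/
noncomputable def cf (m : ℕ) (p : ℕ × ℕ) : ℂ := ((m.choose p.1 * m.choose p.2 : ℕ) : ℂ) / 4 ^ m

theorem factor_eq (m : ℕ) (t : ℝ) :
    ((1 + ee t) * (1 + ee (-t)) / 4) ^ m =
      ∑ p ∈ range (m+1) ×ˢ range (m+1), cf m p * ee (((p.1 : ℝ) - p.2) * t) := by
  rw [div_pow, mul_pow, add_comm 1 (ee t), add_comm 1 (ee (-t)), add_pow, add_pow, sum_mul_sum,
    ← sum_product', sum_div]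
  refine sum_congr rfl fun p _ => ?_
  rw [sub_mul, sub_eq_add_neg, ee_add, ee_nat_mul, show -((p.2 : ℝ) * t) = (p.2 : ℝ) * (-t) by ring,
    ee_nat_mul, cf]
  push_cast
  simp only [one_pow, mul_one]
  ring

theorem norm_factor (t : ℝ) : ‖(1 + ee t) * (1 + ee (-t)) / 4‖ = 1 - ‖ee t - 1‖ ^ 2 / 4 := by
  have h1 : ‖1 + ee (-t)‖ = ‖1 + ee t‖ := by
    rw [ee_neg, ← Complex.norm_conj (1 + ee t), map_add, map_one]
  rw [norm_div, norm_mul, h1]
  have h2 := parallelogram_law_with_norm ℝ (ee t) (1 : ℂ)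
  rw [norm_ee, norm_one, add_comm (ee t) 1] at h2
  have h3 : ‖(4 : ℂ)‖ = 4 := by simp
  rw [h3]
  linarith

theorem norm_cav_le {a : ℕ → ℂ} {B : ℝ} (hB : 0 ≤ B) (h : ∀ n, ‖a n‖ ≤ B) (N : ℕ) : ‖cav a N‖ ≤ B := by
  rw [cav, norm_mul, norm_div, norm_one, Complex.norm_natCast]
  have h1 : ‖∑ n ∈ range N, a n‖ ≤ N * B := by
    refine (norm_sum_le _ _).trans ((sum_le_sum fun n _ => h n).trans ?_)
    simp
  rcases Nat.eq_zero_or_pos N with h0 | h0
  · subst h0; simpa using hB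
  · have h2 : (0 : ℝ) < N := by exact_mod_cast h0
    calc 1 / (N : ℝ) * ‖∑ n ∈ range N, a n‖ ≤ 1 / (N : ℝ) * (N * B) := by gcongr
      _ = B := by field_simp

theorem tendsto_cav_const (c : ℂ) : Tendsto (cav fun _ => c) atTop (𝓝 c) := by
  refine tendsto_const_nhds.congr' ?_
  filter_upwards [eventually_gt_atTop 0] with N hN
  have h2 : (N : ℂ) ≠ 0 := by exact_mod_cast hN.ne'
  rw [cav]
  simp
  field_simp

theorem kron {ι : Type} [Fintype ι] [DecidableEq ι] (q : ι → ℝ[X])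
    (hq : ∀ c : ι → ℤ, c ≠ 0 → ∃ i, 1 ≤ i ∧ Irrational ((∑ l, C (c l : ℝ) * q l).coeff i))
    {ε : ℝ} (hε : 0 < ε) : ∃ n : ℕ, ∀ l, ‖ee ((q l).eval (n : ℝ)) - 1‖ < ε := by
  by_contra hcon
  push Not at hcon
  set η : ℝ := 1 - ε ^ 2 / 4 with hη
  have hη1 : η < 1 := by rw [hη]; have := sq_pos_of_pos hε; linarith
  have hfl : ∀ t, ‖(1 + ee t) * (1 + ee (-t)) / 4‖ ≤ 1 := fun t => by
    rw [norm_factor]; have := sq_nonneg ‖ee t - 1‖; linarith
  have hη0 : 0 ≤ η := by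
    obtain ⟨l, hl⟩ := hcon 0
    have key : ∀ t, ε ≤ ‖ee t - 1‖ → 0 ≤ η := by
      intro t ht
      have h1 := norm_nonneg ((1 + ee t) * (1 + ee (-t)) / 4)
      rw [norm_factor] at h1
      have h2 := pow_le_pow_left₀ hε.le ht 2
      rw [hη]; linarith
    exact key _ hl
  have hb : ∀ m n : ℕ, ‖∏ l, ((1 + ee ((q l).eval (n : ℝ))) * (1 + ee (-(q l).eval (n : ℝ))) / 4) ^ m‖
      ≤ η ^ m := by
    intro m n
    obtain ⟨l, hl⟩ := hcon n
    rw [norm_prod, ← Finset.mul_prod_erase univ _ (mem_univ l)]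
    have h1 : ‖((1 + ee ((q l).eval (n : ℝ))) * (1 + ee (-(q l).eval (n : ℝ))) / 4) ^ m‖ ≤ η ^ m := by
      rw [norm_pow]
      refine pow_le_pow_left₀ (norm_nonneg _) ?_ m
      rw [norm_factor]
      have h2 := pow_le_pow_left₀ hε.le hl 2
      rw [hη]; linarith
    have h2 : ∏ l' ∈ univ.erase l, ‖((1 + ee ((q l').eval (n : ℝ))) * (1 + ee (-(q l').eval (n : ℝ))) / 4) ^ m‖ ≤ 1 := by
      refine Finset.prod_le_one (fun _ _ => norm_nonneg _) fun i _ => ?_
      rw [norm_pow]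
      exact pow_le_one₀ (norm_nonneg _) (hfl _)
    calc _ ≤ η ^ m * 1 := mul_le_mul h1 h2 (prod_nonneg fun _ _ => norm_nonneg _) (pow_nonneg hη0 m)
      _ = η ^ m := mul_one _
  have hlim : ∀ m : ℕ, Tendsto (cav fun n => ∏ l, ((1 + ee ((q l).eval (n : ℝ))) * (1 + ee (-(q l).eval (n : ℝ))) / 4) ^ m)
      atTop (𝓝 ((∑ p ∈ range (m+1) ×ˢ range (m+1), if p.1 = p.2 then cf m p else 0) ^ Fintype.card ι)) := by
    intro m
    have h1 : (cav fun n => ∏ l, ((1 + ee ((q l).eval (n : ℝ))) * (1 + ee (-(q l).eval (n : ℝ))) / 4) ^ m) =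
        fun N => ∑ φ ∈ Fintype.piFinset (fun _ : ι => range (m+1) ×ˢ range (m+1)),
          cav (fun n => ∏ l, (cf m (φ l) * ee ((((φ l).1 : ℝ) - (φ l).2) * (q l).eval (n : ℝ)))) N := by
      funext N
      simp only [cav]
      rw [← mul_sum, sum_comm]
      congr 1
      refine sum_congr rfl fun n _ => ?_
      refine Eq.trans ?_ (Finset.prod_univ_sum (fun _ : ι => range (m+1) ×ˢ range (m+1))
        (fun l p => cf m p * ee (((p.1 : ℝ) - p.2) * (q l).eval (n : ℝ))))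
      exact prod_congr rfl fun l _ => factor_eq m _
    rw [h1]
    have h2 : (∑ p ∈ range (m+1) ×ˢ range (m+1), if p.1 = p.2 then cf m p else 0) ^ Fintype.card ι =
        ∑ φ ∈ Fintype.piFinset (fun _ : ι => range (m+1) ×ˢ range (m+1)),
          ∏ l, (if (φ l).1 = (φ l).2 then cf m (φ l) else 0) := by
      rw [← Finset.prod_univ_sum (fun _ : ι => range (m+1) ×ˢ range (m+1)) (fun _ p => if p.1 = p.2 then cf m p else 0)]
      rw [prod_const, card_univ]
    rw [h2]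
    refine tendsto_finsetSum _ fun φ _ => ?_
    by_cases hd : ∀ l, (φ l).1 = (φ l).2
    · have h3 : (fun n : ℕ => ∏ l, (cf m (φ l) * ee ((((φ l).1 : ℝ) - (φ l).2) * (q l).eval (n : ℝ)))) =
          fun _ => ∏ l, (if (φ l).1 = (φ l).2 then cf m (φ l) else 0) := by
        funext n
        refine prod_congr rfl fun l _ => ?_
        rw [if_pos (hd l), hd l, sub_self, zero_mul, ee_zero, mul_one]
      rw [h3]
      exact tendsto_cav_const _
    · push Not at hd
      obtain ⟨l₀, hl₀⟩ := hd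
      have h3 : ∏ l, (if (φ l).1 = (φ l).2 then cf m (φ l) else 0) = 0 :=
        prod_eq_zero (mem_univ l₀) (if_neg hl₀)
      rw [h3]
      obtain ⟨i, hi1, hi2⟩ := hq (fun l => ((φ l).1 : ℤ) - (φ l).2) (by
        intro h
        have := congrFun h l₀
        simp only [Pi.zero_apply] at this
        exact hl₀ (by omega))
      have h4 := weyl_poly _ ⟨i, hi1, hi2⟩
      have h5 := h4.const_mul (∏ l, cf m (φ l))
      rw [mul_zero] at h5
      refine h5.congr fun N => ?_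
      simp only [cav]
      rw [mul_left_comm, mul_sum]
      congr 1
      refine sum_congr rfl fun n _ => ?_
      rw [prod_mul_distrib, ← ee_sum, eval_finsetSum]
      congr 2
      refine sum_congr rfl fun l _ => ?_
      rw [eval_mul, eval_C]
      push_cast
      ring
  have hS : ∀ m : ℕ, (∑ p ∈ range (m+1) ×ˢ range (m+1), if p.1 = p.2 then cf m p else 0) =
      (((∑ s ∈ range (m+1), ((m.choose s : ℝ)) ^ 2) / 4 ^ m : ℝ) : ℂ) := by
    intro m
    rw [sum_product]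
    push_cast
    rw [sum_div]
    refine sum_congr rfl fun s hs => ?_
    rw [Finset.sum_ite_eq, if_pos hs, cf]
    push_cast
    ring
  have hSge : ∀ m : ℕ, 1 / ((m : ℝ) + 1) ≤ (∑ s ∈ range (m+1), ((m.choose s : ℝ)) ^ 2) / 4 ^ m := by
    intro m
    have h1 := sq_sum_le_card_mul_sum_sq (s := range (m+1)) (f := fun s => (m.choose s : ℝ))
    have h2 : ∑ s ∈ range (m+1), (m.choose s : ℝ) = 2 ^ m := by
      have := Nat.sum_range_choose m
      exact_mod_cast this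
    rw [h2, card_range] at h1
    rw [div_le_div_iff₀ (by positivity) (by positivity), one_mul]
    have h4 : ((2 : ℝ) ^ m) ^ 2 = 4 ^ m := by rw [← pow_mul, mul_comm m 2, pow_mul]; norm_num
    rw [h4] at h1
    push_cast at h1
    linarith
  have hfin : ∀ m : ℕ, (1 / ((m : ℝ) + 1)) ^ Fintype.card ι ≤ η ^ m := by
    intro m
    have h1 := le_of_tendsto' (hlim m).norm (fun N => norm_cav_le (pow_nonneg hη0 m) (hb m) N)
    rw [hS, norm_pow, Complex.norm_real, Real.norm_eq_abs] at h1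
    refine le_trans (pow_le_pow_left₀ (by positivity) ((hSge m).trans (le_abs_self _)) _) h1
  have hlim2 : Tendsto (fun m : ℕ => ((m : ℝ) ^ Fintype.card ι) * η ^ m) atTop (𝓝 0) :=
    tendsto_pow_const_mul_const_pow_of_abs_lt_one _ (by rwa [abs_of_nonneg hη0])
  have hlim3 : Tendsto (fun m : ℕ => (2:ℝ) ^ Fintype.card ι * (((m : ℝ) ^ Fintype.card ι) * η ^ m)) atTop (𝓝 0) := by
    simpa using hlim2.const_mul ((2:ℝ) ^ Fintype.card ι)
  have h5 := (hlim3.eventually (gt_mem_nhds (show (0:ℝ) < 1 by norm_num))).and (eventually_ge_atTop 1)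
  obtain ⟨m, hm, hm1⟩ := h5.exists
  have h6 := hfin m
  have hm1' : (1 : ℝ) ≤ m := by exact_mod_cast hm1
  rw [one_div, inv_pow] at h6
  have h7 : (0:ℝ) < ((m : ℝ) + 1) ^ Fintype.card ι := by positivity
  have h8 : 1 ≤ ((m : ℝ) + 1) ^ Fintype.card ι * η ^ m := by
    calc (1:ℝ) = ((m : ℝ) + 1) ^ Fintype.card ι * (((m : ℝ) + 1) ^ Fintype.card ι)⁻¹ := (mul_inv_cancel₀ h7.ne').symm
      _ ≤ _ := by gcongr
  have h9 : ((m : ℝ) + 1) ^ Fintype.card ι ≤ (2 : ℝ) ^ Fintype.card ι * (m : ℝ) ^ Fintype.card ι := by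
    rw [← mul_pow]
    gcongr
    linarith
  have h10 : ((m : ℝ) + 1) ^ Fintype.card ι * η ^ m ≤ (2:ℝ) ^ Fintype.card ι * (((m : ℝ) ^ Fintype.card ι) * η ^ m) := by
    rw [← mul_assoc]
    exact mul_le_mul_of_nonneg_right h9 (pow_nonneg hη0 m)
  linarith

end Pool.Agent.H514R5
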