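import Mathlib
import Pool.Agent.H514R5.Kron
import Pool.Agent.H514R5.Aff

set_option autoImplicit false

namespace Pool.Agent.H514R5

open Finset Topology Polynomial Pool.Agent.H767R2

abbrev Tor (r : ℕ) : Type := Fin r → UnitAddCircle

/-- the character of the torus with frequency vector `c` -/
def ch {r : ℕ} (c : Fin r → ℤ) (x : Tor r) : UnitAddCircle := ∑ i, c i • x i

/-- an integer matrix acting on the torus -/
def act {r : ℕ} (A : Matrix (Fin r) (Fin r) ℤ) : Tor r →+ Tor r where
  toFun x := fun i => ∑ j, A i j • x j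
  map_zero' := by funext i; simp
  map_add' x y := by funext i; simp [smul_add, sum_add_distrib]

theorem ch_act {r : ℕ} (A : Matrix (Fin r) (Fin r) ℤ) (c : Fin r → ℤ) (x : Tor r) :
    ch c (act A x) = ch (Matrix.vecMul c A) x := by
  unfold ch act
  simp only [AddMonoidHom.coe_mk, ZeroHom.coe_mk, smul_sum, Matrix.vecMul, dotProduct, sum_smul]
  rw [sum_comm]
  refine sum_congr rfl fun i _ => sum_congr rfl fun j _ => ?_
  rw [smul_smul]

theorem ch_add {r : ℕ} (c : Fin r → ℤ) (x y : Tor r) : ch c (x + y) = ch c x + ch c y := by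
  unfold ch; simp [smul_add, sum_add_distrib]

theorem ch_zsmul {r : ℕ} (c : Fin r → ℤ) (m : ℤ) (x : Tor r) : ch (m • c) x = m • ch c x := by
  unfold ch; rw [smul_sum]
  refine sum_congr rfl fun i _ => ?_
  rw [Pi.smul_apply, smul_eq_mul, mul_smul]

theorem ch_continuous {r : ℕ} (c : Fin r → ℤ) : Continuous (ch c) := by
  unfold ch
  exact continuous_finsetSum _ fun i _ => (continuous_apply i).zsmul (c i)

/-- a nonzero character is nonzero arbitrarily close to every point -/
theorem ch_open {r : ℕ} {c : Fin r → ℤ} (hc : c ≠ 0) (z : UnitAddCircle) :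
    interior {x : Tor r | ch c x = z} = ∅ := by
  by_contra hne
  obtain ⟨x, hx⟩ := Set.nonempty_iff_ne_empty.2 hne
  rw [mem_interior_iff_mem_nhds] at hx
  obtain ⟨i, hi⟩ : ∃ i, c i ≠ 0 := by
    by_contra h
    push Not at h
    exact hc (funext h)
  -- the path moving the coordinate i
  let g : ℝ → Tor r := fun t => x + Pi.single i ((t : ℝ) : UnitAddCircle)
  have hg : Continuous g := by
    have h1 : Continuous fun t : ℝ => (Pi.single i ((t : ℝ) : UnitAddCircle) : Tor r) := by
      rw [continuous_pi_iff]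
      intro j
      by_cases hj : j = i
      · subst hj; simpa using (AddCircle.continuous_mk' (1:ℝ))
      · simp only [Pi.single_apply, if_neg hj]; exact continuous_const
    exact continuous_const.add h1
  have h0 : g 0 = x := by
    simp [g]
  have h2 := hg.continuousAt (x := 0)
  rw [ContinuousAt, h0] at h2
  have h3 := h2 hx
  rw [Filter.mem_map, Metric.mem_nhds_iff] at h3
  obtain ⟨δ, hδ, hb⟩ := h3
  have hval : ∀ t : ℝ, ch c (g t) = ch c x + ((((c i : ℝ) * t : ℝ)) : UnitAddCircle) := by
    intro t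
    rw [ch_add]
    congr 1
    unfold ch
    rw [Finset.sum_eq_single i]
    · rw [Pi.single_eq_same, ← AddCircle.coe_zsmul, zsmul_eq_mul]
    · intro j _ hj; rw [Pi.single_eq_of_ne hj, smul_zero]
    · simp
  set t : ℝ := min (δ/2) (1 / (2 * |(c i : ℝ)|)) with ht
  have hci : (0:ℝ) < |(c i : ℝ)| := abs_pos.2 (by exact_mod_cast hi)
  have htp : 0 < t := by rw [ht]; positivity
  have htd : t < δ := lt_of_le_of_lt (min_le_left _ _) (by linarith)
  have h4 : g t ∈ {x : Tor r | ch c x = z} := hb (by simp [abs_of_pos htp, htd])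
  have h5 : g 0 ∈ {x : Tor r | ch c x = z} := hb (by simp [hδ])
  have h6 : ch c (g t) = ch c (g 0) := h4.trans h5.symm
  rw [hval, hval, mul_zero] at h6
  have h7 : ((((c i : ℝ) * t : ℝ)) : UnitAddCircle) = 0 := by
    have := add_left_cancel h6
    simpa using this
  rw [AddCircle.coe_eq_zero_iff] at h7
  obtain ⟨n, hn⟩ := h7
  rw [zsmul_eq_mul, mul_one] at hn
  have h8 : |(c i : ℝ) * t| ≤ 1 / 2 := by
    rw [abs_mul, abs_of_pos htp]
    calc |(c i : ℝ)| * t ≤ |(c i : ℝ)| * (1 / (2 * |(c i : ℝ)|)) := by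
          gcongr; exact min_le_right _ _
      _ = 1 / 2 := by field_simp
  have h9 : (c i : ℝ) * t ≠ 0 := mul_ne_zero (by exact_mod_cast hi) htp.ne'
  rw [← hn] at h8 h9
  have h10 : n ≠ 0 := by rintro rfl; simp at h9
  have h11 : (1:ℝ) ≤ |(n:ℝ)| := by exact_mod_cast Int.one_le_abs h10
  linarith

end Pool.Agent.H514R5
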