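import Mathlib
import Pool.Agent.H514R5.Base

set_option autoImplicit false

namespace Pool.Agent.H514R5

open Finset Topology Polynomial Filter Pool.Agent.H767R2

theorem tendsto_circle (t : ℕ → ℝ) (h : Tendsto (fun n => ee (t n)) atTop (𝓝 1)) :
    Tendsto (fun n => ((t n : ℝ) : UnitAddCircle)) atTop (𝓝 0) := by
  let f : UnitAddCircle → ℂ := fun x => (AddCircle.toCircle x : ℂ)
  have hf : Continuous f := continuous_subtype_val.comp AddCircle.continuous_toCircle
  have hi : Function.Injective f := by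
    intro x y hxy
    exact AddCircle.injective_toCircle one_ne_zero (Subtype.ext hxy)
  have he := hf.isClosedEmbedding hi
  rw [he.isEmbedding.tendsto_nhds_iff]
  have h1 : f ∘ (fun n => ((t n : ℝ) : UnitAddCircle)) = fun n => ee (t n) := by
    funext n
    simp only [Function.comp, f]
    rw [AddCircle.toCircle_apply_mk, Circle.coe_exp, ee]
    congr 1
    push_cast
    ring
  have h2 : f 0 = 1 := by simp [f]
  rw [h1, h2]
  exact h

theorem irr {r : ℕ} {b : Fin r → ℝ} (hb : ∀ c : Fin r → ℤ, c ≠ 0 →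
    ch c (fun i => ((b i : ℝ) : UnitAddCircle)) ≠ 0) {c : Fin r → ℤ} (hc : c ≠ 0) :
    Irrational (∑ i, (c i : ℝ) * b i) := by
  rintro ⟨q, hq⟩
  have hd : (q.den : ℤ) ≠ 0 := by exact_mod_cast q.den_ne_zero
  have h1 : (q.den : ℤ) • c ≠ 0 := smul_ne_zero hd hc
  apply hb _ h1
  have h2 : ∀ c' : Fin r → ℤ, ch c' (fun i => ((b i : ℝ) : UnitAddCircle)) =
      (((∑ i, (c' i : ℝ) * b i : ℝ)) : UnitAddCircle) := by
    intro c'
    unfold ch
    have : ((∑ i, (c' i : ℝ) * b i : ℝ) : UnitAddCircle) = ∑ i, ((((c' i : ℝ) * b i : ℝ)) : UnitAddCircle) := by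
      exact map_sum (QuotientAddGroup.mk' _) _ _
    rw [this]
    refine sum_congr rfl fun i _ => ?_
    rw [← AddCircle.coe_zsmul, zsmul_eq_mul]
  rw [h2]
  have h3 : (∑ i, ((((q.den : ℤ) • c) i : ℤ) : ℝ) * b i) = (q.num : ℝ) := by
    have h4 : (∑ i, ((((q.den : ℤ) • c) i : ℤ) : ℝ) * b i) = (q.den : ℝ) * ∑ i, (c i : ℝ) * b i := by
      rw [mul_sum]
      refine sum_congr rfl fun i _ => ?_
      rw [Pi.smul_apply, smul_eq_mul]
      push_cast
      ring
    rw [h4, ← hq]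
    have := Rat.den_mul_eq_num q
    exact_mod_cast this
  rw [h3, AddCircle.coe_eq_zero_iff]
  exact ⟨q.num, by simp⟩

/-- the polynomials -/
noncomputable def qq {r : ℕ} (b : Fin r → ℝ) (M k : ℕ) (j : ℝ) {D : ℕ} (z : Fin D × Fin r) : ℝ[X] :=
  C (b z.2 / M) * (C (k : ℝ) * X + C j) ^ ((z.1 : ℕ) + 1)

theorem coeff_top {k : ℝ} {j : ℝ} (m : ℕ) : ((C k * X + C j) ^ m : ℝ[X]).coeff m = k ^ m := by
  have h := coeff_pow_of_natDegree_le (p := C k * X + C j) (n := 1) (m := m) (by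
    exact natDegree_linear_le)
  rw [mul_one] at h
  rw [h]
  simp

theorem coeff_low {k : ℝ} {j : ℝ} {m n : ℕ} (h : m < n) : ((C k * X + C j) ^ m : ℝ[X]).coeff n = 0 := by
  apply coeff_eq_zero_of_natDegree_lt
  refine lt_of_le_of_lt (natDegree_pow_le_of_le m natDegree_linear_le) ?_
  omega

theorem qq_irr {r : ℕ} {b : Fin r → ℝ} (hb : ∀ c : Fin r → ℤ, c ≠ 0 →
    ch c (fun i => ((b i : ℝ) : UnitAddCircle)) ≠ 0) {M k : ℕ} (hM : 0 < M) (hk : 0 < k) (j : ℝ) {D : ℕ}
    (c : Fin D × Fin r → ℤ) (hc : c ≠ 0) :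
    ∃ i, 1 ≤ i ∧ Irrational ((∑ l, C (c l : ℝ) * qq b M k j l).coeff i) := by
  classical
  have hex : (univ.filter fun l : Fin D => ∃ i, c (l, i) ≠ 0).Nonempty := by
    by_contra h
    rw [not_nonempty_iff_eq_empty, filter_eq_empty_iff] at h
    apply hc
    funext ⟨l, i⟩
    have := h (mem_univ l)
    push Not at this
    exact this i
  obtain ⟨L, hL, hmax⟩ := exists_max_image _ (fun l : Fin D => l) hex
  rw [mem_filter] at hL
  refine ⟨(L : ℕ) + 1, by omega, ?_⟩
  have h1 : (∑ l, C (c l : ℝ) * qq b M k j l).coeff ((L : ℕ) + 1) =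
      (∑ i, (c (L, i) : ℝ) * b i) * ((k : ℝ) ^ ((L : ℕ) + 1) / M) := by
    rw [finsetSum_coeff, Fintype.sum_prod_type, Finset.sum_eq_single L]
    · rw [sum_mul]
      refine sum_congr rfl fun i _ => ?_
      rw [coeff_C_mul, qq, coeff_C_mul, coeff_top]
      ring
    · intro l _ hl
      refine sum_eq_zero fun i _ => ?_
      rw [coeff_C_mul, qq, coeff_C_mul]
      rcases lt_or_gt_of_ne hl with h | h
      · rw [coeff_low (by have : (l : ℕ) < L := h; show (l : ℕ) + 1 < (L : ℕ) + 1; omega), mul_zero, mul_zero]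
      · have : c (l, i) = 0 := by
          by_contra h2
          exact absurd (hmax l (by rw [mem_filter]; exact ⟨mem_univ _, i, h2⟩)) (not_le.2 h)
        rw [this]; simp
    · simp
  rw [h1]
  have h2 : (fun i => c (L, i)) ≠ 0 := by
    obtain ⟨i, hi⟩ := hL.2
    intro h
    exact hi (congrFun h i)
  have h3 := irr hb h2
  have h4 : ((k : ℝ) ^ ((L : ℕ) + 1) / M) = (((k : ℚ) ^ ((L : ℕ) + 1) / M : ℚ) : ℝ) := by push_cast; ring
  rw [h4]
  refine h3.mul_ratCast ?_
  have : (k : ℚ) ≠ 0 := by exact_mod_cast hk.ne'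
  have : (M : ℚ) ≠ 0 := by exact_mod_cast hM.ne'
  positivity

end Pool.Agent.H514R5
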