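import Mathlib
import Pool.Agent.H514R5.Poly

set_option autoImplicit false

namespace Pool.Agent.H514R5

open Finset Topology Polynomial Filter Pool.Agent.H767R2

theorem act_mul {r : ℕ} (A B : Matrix (Fin r) (Fin r) ℤ) (x : Tor r) :
    act (A * B) x = act A (act B x) := by
  funext i
  unfold act
  simp only [AddMonoidHom.coe_mk, ZeroHom.coe_mk, smul_sum, Matrix.mul_apply, sum_smul]
  rw [sum_comm]
  refine sum_congr rfl fun j _ => sum_congr rfl fun l _ => ?_
  rw [smul_smul]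

theorem act_iter {r : ℕ} (A : Matrix (Fin r) (Fin r) ℤ) (n : ℕ) (x : Tor r) :
    (act A)^[n] x = act (A ^ n) x := by
  induction n with
  | zero =>
    funext i
    simp [act, Matrix.one_apply, ite_smul]
  | succ n ih => rw [Function.iterate_succ_apply', ih, pow_succ', act_mul]

theorem act_continuous {r : ℕ} (A : Matrix (Fin r) (Fin r) ℤ) : Continuous (act A) := by
  have h : Continuous fun x : Tor r => (fun i => ∑ j, A i j • x j : Tor r) :=
    continuous_pi fun i => continuous_finsetSum _ fun j _ => (continuous_apply j).zsmul (A i j)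
  exact h

/-- there is a point with a generic translation vector -/
theorem exists_generic {r : ℕ} (A : Matrix (Fin r) (Fin r) ℤ) (α : Tor r) (T : Equiv.Perm (Tor r))
    (hT : ∀ x, T x = x + act A x + α) (hmin : ∀ x, Dense (Set.range fun n : ℤ => (T ^ n) x)) :
    ∃ x : Tor r, ∀ c : Fin r → ℤ, c ≠ 0 → ch c (act A x + α) ≠ 0 := by
  by_contra hcon
  push Not at hcon
  have hU : (⋃ c : {c : Fin r → ℤ // c ≠ 0}, {x : Tor r | ch c.1 (act A x + α) = 0}) = Set.univ := by
    rw [Set.eq_univ_iff_forall]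
    intro x
    obtain ⟨c, hc, hx⟩ := hcon x
    exact Set.mem_iUnion.2 ⟨⟨c, hc⟩, hx⟩
  obtain ⟨⟨c, hc⟩, hne⟩ := nonempty_interior_of_iUnion_of_closed
    (f := fun c : {c : Fin r → ℤ // c ≠ 0} => {x : Tor r | ch c.1 (act A x + α) = 0})
    (fun c => isClosed_eq ((ch_continuous c.1).comp ((act_continuous A).add continuous_const))
      continuous_const) hU
  have h1 : {x : Tor r | ch c (act A x + α) = 0} = {x : Tor r | ch (Matrix.vecMul c A) x = - ch c α} := by
    ext x
    simp only [Set.mem_ofPred_eq]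
    rw [ch_add, ch_act, eq_neg_iff_add_eq_zero]
  simp only at hne
  rw [h1] at hne
  by_cases hc' : Matrix.vecMul c A = 0
  · obtain ⟨x, hx⟩ := hne
    have hx2 := interior_subset hx
    simp only [Set.mem_ofPred_eq] at hx2
    rw [hc'] at hx2
    have h2 : ch c α = 0 := by
      have h3 : ch (0 : Fin r → ℤ) x = 0 := by simp [ch]
      rw [h3] at hx2
      exact neg_eq_zero.1 hx2.symm
    have h4 : ∀ x, ch c (T x) = ch c x := by
      intro x
      rw [hT, ch_add, ch_add, ch_act, hc', h2]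
      simp [ch]
    have h5 : ∀ n : ℤ, ch c ((T ^ n) 0) = 0 := by
      intro n
      induction n using Int.induction_on with
      | zero => simp [ch]
      | succ n ih =>
        rw [add_comm, zpow_add, zpow_one, Equiv.Perm.mul_apply, h4, ih]
      | pred n ih =>
        rw [← h4, ← Equiv.Perm.mul_apply, ← zpow_one_add, add_sub_cancel, ih]
    have h6 : closure (Set.range fun n : ℤ => (T ^ n) (0 : Tor r)) ⊆ {x | ch c x = 0} := by
      refine closure_minimal ?_ (isClosed_eq (ch_continuous c) continuous_const)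
      rintro _ ⟨n, rfl⟩
      exact h5 n
    rw [(hmin 0).closure_eq] at h6
    have h7 := ch_open hc (0 : UnitAddCircle)
    rw [Set.univ_subset_iff.1 h6, interior_univ] at h7
    exact absurd h7 Set.univ_nonempty.ne_empty
  · rw [ch_open hc'] at hne
    exact Set.not_nonempty_empty hne

/-- the vectors `binom (p (k n + j)) (a + 1) β` tend to zero along a sequence -/
theorem choose_tendsto {r : ℕ} (b : Fin r → ℝ) (s k : ℕ) (j : ℕ) (D : ℕ) (p : ℤ[X]) (hp : p.eval 0 = 0)
    (a : ℕ) (ha : a + 1 ≤ s) (hD : ((descPochhammer ℤ (a + 1)).comp p).natDegree ≤ D) (nn : ℕ → ℕ)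
    (h : ∀ z : Fin D × Fin r, Tendsto (fun ν => (((qq b s.factorial k j z).eval (nn ν : ℝ) : ℝ) : UnitAddCircle))
      atTop (𝓝 0)) (i : Fin r) :
    Tendsto (fun ν => Ring.choose (p.eval ((k : ℤ) * (nn ν : ℤ) + j)) (a + 1) • ((b i : ℝ) : UnitAddCircle))
      atTop (𝓝 0) := by
  set R := (descPochhammer ℤ (a + 1)).comp p with hR
  obtain ⟨w, hw⟩ := Nat.factorial_dvd_factorial ha
  have hR0 : R.coeff 0 = 0 := by
    rw [coeff_zero_eq_eval_zero, hR, eval_comp, hp]
    exact descPochhammer_ne_zero_eval_zero (R := ℤ) (Nat.succ_ne_zero a)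
  have key : ∀ y : ℤ, Ring.choose (p.eval y) (a + 1) • ((b i : ℝ) : UnitAddCircle) =
      ∑ l : Fin D, (R.coeff ((l : ℕ) + 1) * w) • (((b i / s.factorial * (y : ℝ) ^ ((l : ℕ) + 1) : ℝ)) : UnitAddCircle) := by
    intro y
    have h1 : R.eval y = ((a + 1).factorial : ℤ) * Ring.choose (p.eval y) (a + 1) := by
      rw [hR, eval_comp, eval_eq_smeval, Ring.descPochhammer_eq_factorial_smul_choose, nsmul_eq_mul]
    have h2 : R.eval y = ∑ l : Fin D, R.coeff ((l : ℕ) + 1) * y ^ ((l : ℕ) + 1) := by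
      rw [eval_eq_sum_range' (n := D + 1) (by omega), sum_range_succ', hR0, zero_mul, add_zero,
        Finset.sum_range]
    have h3 : (((Ring.choose (p.eval y) (a + 1) : ℤ) : ℝ)) * b i =
        ∑ l : Fin D, ((R.coeff ((l : ℕ) + 1) * w : ℤ) : ℝ) * (b i / s.factorial * (y : ℝ) ^ ((l : ℕ) + 1)) := by
      have h4 : ((R.eval y : ℤ) : ℝ) = ((a + 1).factorial : ℝ) * (Ring.choose (p.eval y) (a + 1) : ℤ) := by
        rw [h1]; push_cast; ring
      have h5 : ((R.eval y : ℤ) : ℝ) = ∑ l : Fin D, (R.coeff ((l : ℕ) + 1) : ℝ) * (y : ℝ) ^ ((l : ℕ) + 1) := by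
        rw [h2]; push_cast; rfl
      have h6 : ((a + 1).factorial : ℝ) ≠ 0 := by exact_mod_cast (Nat.factorial_ne_zero _)
      have h7 : (s.factorial : ℝ) = (a + 1).factorial * w := by exact_mod_cast hw
      have h8 : (w : ℝ) ≠ 0 := by
        intro h9
        rw [h9, mul_zero] at h7
        exact (by exact_mod_cast Nat.factorial_ne_zero s : (s.factorial : ℝ) ≠ 0) h7
      have h10 : ∑ l : Fin D, ((R.coeff ((l : ℕ) + 1) * w : ℤ) : ℝ) * (b i / s.factorial * (y : ℝ) ^ ((l : ℕ) + 1)) =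
          (b i / (a + 1).factorial) * ∑ l : Fin D, (R.coeff ((l : ℕ) + 1) : ℝ) * (y : ℝ) ^ ((l : ℕ) + 1) := by
        rw [mul_sum]
        refine sum_congr rfl fun l _ => ?_
        rw [h7]
        push_cast
        field_simp
      rw [h10, ← h5, h4]
      field_simp
    rw [← AddCircle.coe_zsmul, zsmul_eq_mul, h3]
    have h11 : ((∑ l : Fin D, ((R.coeff ((l : ℕ) + 1) * w : ℤ) : ℝ) * (b i / s.factorial * (y : ℝ) ^ ((l : ℕ) + 1)) : ℝ) : UnitAddCircle) =
        ∑ l : Fin D, ((((R.coeff ((l : ℕ) + 1) * w : ℤ) : ℝ) * (b i / s.factorial * (y : ℝ) ^ ((l : ℕ) + 1)) : ℝ) : UnitAddCircle) :=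
      map_sum (QuotientAddGroup.mk' _) _ _
    rw [h11]
    refine sum_congr rfl fun l _ => ?_
    rw [← AddCircle.coe_zsmul, zsmul_eq_mul]
  simp only [key]
  have h0 : (0 : UnitAddCircle) = ∑ l : Fin D, (R.coeff ((l : ℕ) + 1) * w) • (0 : UnitAddCircle) := by simp
  rw [h0]
  refine tendsto_finsetSum _ fun l _ => ?_
  have h12 := h (l, i)
  have h13 : Continuous fun x : UnitAddCircle => (R.coeff ((l : ℕ) + 1) * w) • x := continuous_id.zsmul _
  refine (h13.tendsto 0).comp (h12.congr fun ν => ?_)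
  simp only [qq, eval_mul, eval_pow, eval_add, eval_C, eval_X]
  push_cast
  rfl

theorem zpow_continuous {r : ℕ} (A : Matrix (Fin r) (Fin r) ℤ) {s : ℕ} (hs : 0 < s) (hA : A ^ s = 0)
    (α : Tor r) (T : Equiv.Perm (Tor r)) (hT : ∀ x, T x = x + act A x + α) (m : ℤ) :
    Continuous fun x => (T ^ m) x := by
  have hN : ∀ y : Tor r, (act A)^[s] y = 0 := by
    intro y
    rw [act_iter, hA]
    funext i
    simp [act]
  have h1 : (fun x => (T ^ m) x) = fun x => x + ∑ i ∈ range s, Ring.choose m (i + 1) • (act (A ^ i) (act A x + α)) := by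
    funext x
    rw [iterate_eq (act A) s hs hN α T hT, F]
    simp only [act_iter]
  rw [h1]
  refine continuous_id.add (continuous_finsetSum _ fun i _ => Continuous.zsmul ?_ _)
  exact (act_continuous _).comp ((act_continuous A).add continuous_const)

theorem main {r : ℕ} (U : Matrix (Fin r) (Fin r) ℤ) (hU : IsNilpotent (U - 1)) (α : Tor r)
    (T : Equiv.Perm (Tor r)) (hT : ∀ x i, T x i = ∑ j, U i j • x j + α i)
    (hmin : ∀ x, Dense (Set.range fun n : ℤ => (T ^ n) x))
    {d : ℕ} (p : Fin d → ℤ[X]) (hp : ∀ i, (p i).eval 0 = 0) (k : ℕ) (hk : 0 < k) (j : ℕ)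
    (V : Set (Tor r)) (hV : IsOpen V) (hne : V.Nonempty) :
    ∃ n : ℕ, 0 < n ∧ ∃ x ∈ V, ∀ i, (T ^ ((p i).eval ((k : ℤ) * (n : ℤ) + j))) x ∈ V := by
  classical
  obtain ⟨s0, hs0⟩ := hU
  set A := U - 1 with hAdef
  set s := s0 + 1 with hs
  have hspos : 0 < s := by omega
  have hAs : A ^ s = 0 := by rw [hs, pow_succ, hs0, zero_mul]
  have hT' : ∀ x, T x = x + act A x + α := by
    intro x
    funext i
    rw [hT, Pi.add_apply, Pi.add_apply]
    congr 1
    have h1 : act A x i = ∑ l, (U i l - (1 : Matrix (Fin r) (Fin r) ℤ) i l) • x l := rfl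
    rw [h1]
    simp only [sub_smul, sum_sub_distrib, Matrix.one_apply, ite_smul, one_smul, zero_smul,
      Finset.sum_ite_eq, mem_univ, if_true]
    abel
  have hN : ∀ y : Tor r, (act A)^[s] y = 0 := by
    intro y
    rw [act_iter, hAs]
    funext i
    simp [act]
  obtain ⟨x0, hx0⟩ := exists_generic A α T hT' hmin
  have hlift : ∀ i, ∃ t : ℝ, ((t : ℝ) : UnitAddCircle) = (act A x0 + α) i :=
    fun i => QuotientAddGroup.mk_surjective _
  choose b hb using hlift
  have hb' : (fun i => ((b i : ℝ) : UnitAddCircle)) = act A x0 + α := funext hb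
  have hgen : ∀ c : Fin r → ℤ, c ≠ 0 → ch c (fun i => ((b i : ℝ) : UnitAddCircle)) ≠ 0 := by
    intro c hc
    rw [hb']
    exact hx0 c hc
  set D := ∑ i, ∑ a ∈ range s, ((descPochhammer ℤ (a + 1)).comp (p i)).natDegree with hD
  have hDle : ∀ i, ∀ a ∈ range s, ((descPochhammer ℤ (a + 1)).comp (p i)).natDegree ≤ D := by
    intro i a ha
    refine (single_le_sum (f := fun a => ((descPochhammer ℤ (a + 1)).comp (p i)).natDegree)
      (fun _ _ => Nat.zero_le _) ha).trans ?_
    exact single_le_sum (f := fun i => ∑ a ∈ range s, ((descPochhammer ℤ (a + 1)).comp (p i)).natDegree)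
      (fun _ _ => Nat.zero_le _) (mem_univ i)
  have hkr : ∀ ν : ℕ, ∃ n : ℕ, ∀ z : Fin D × Fin r,
      ‖ee ((qq b s.factorial k ((j + k : ℕ) : ℝ) z).eval (n : ℝ)) - 1‖ < 1 / ((ν : ℝ) + 1) := by
    intro ν
    exact kron (fun z : Fin D × Fin r => qq b s.factorial k ((j + k : ℕ) : ℝ) z)
      (fun c hc => qq_irr hgen (Nat.factorial_pos s) hk _ c hc) (by positivity)
  choose nn hnn using hkr
  have hz : ∀ z : Fin D × Fin r, Tendsto (fun ν => (((qq b s.factorial k ((j + k : ℕ) : ℝ) z).eval (nn ν : ℝ) : ℝ) : UnitAddCircle))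
      atTop (𝓝 0) := by
    intro z
    apply tendsto_circle
    rw [tendsto_iff_norm_sub_tendsto_zero]
    exact squeeze_zero (fun _ => norm_nonneg _) (fun ν => (hnn ν z).le) tendsto_one_div_add_atTop_nhds_zero_nat
  have hret : ∀ i, Tendsto (fun ν => (T ^ ((p i).eval ((k : ℤ) * (nn ν : ℤ) + (j + k : ℕ)))) x0) atTop (𝓝 x0) := by
    intro i
    have h1 : (fun ν => (T ^ ((p i).eval ((k : ℤ) * (nn ν : ℤ) + (j + k : ℕ)))) x0) = fun ν =>
        x0 + ∑ a ∈ range s, act (A ^ a) (Ring.choose ((p i).eval ((k : ℤ) * (nn ν : ℤ) + (j + k : ℕ))) (a + 1) •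
          (act A x0 + α)) := by
      funext ν
      rw [iterate_eq (act A) s hspos hN α T hT', F]
      congr 1
      refine sum_congr rfl fun a _ => ?_
      rw [act_iter, map_zsmul]
    rw [h1]
    have h2 : x0 = x0 + ∑ a ∈ range s, act (A ^ a) (0 : Tor r) := by simp
    conv_rhs => rw [h2]
    refine tendsto_const_nhds.add (tendsto_finsetSum _ fun a ha => ?_)
    refine ((act_continuous (A ^ a)).tendsto 0).comp ?_
    rw [tendsto_pi_nhds]
    intro l
    have h3 := choose_tendsto b s k (j + k) D (p i) (hp i) a (by have := mem_range.1 ha; omega)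
      (hDle i a ha) nn hz l
    rw [hb l] at h3
    exact h3
  obtain ⟨_, hyV, ⟨m, rfl⟩⟩ := (hmin x0).inter_open_nonempty V hV hne
  have hc := zpow_continuous A hspos hAs α T hT' m
  have hev : ∀ i, ∀ᶠ ν in atTop, (T ^ m) ((T ^ ((p i).eval ((k : ℤ) * (nn ν : ℤ) + (j + k : ℕ)))) x0) ∈ V := by
    intro i
    exact ((hc.tendsto x0).comp (hret i)).eventually (hV.mem_nhds hyV)
  obtain ⟨ν, hν⟩ := (eventually_all.2 hev).exists
  refine ⟨nn ν + 1, by omega, (T ^ m) x0, hyV, fun i => ?_⟩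
  have h4 := hν i
  rw [← Equiv.Perm.mul_apply, ← zpow_add, add_comm, zpow_add, Equiv.Perm.mul_apply] at h4
  have h5 : (k : ℤ) * ((nn ν + 1 : ℕ) : ℤ) + (j : ℤ) = (k : ℤ) * (nn ν : ℤ) + (j + k : ℕ) := by
    push_cast; ring
  rw [h5]
  exact h4

end Pool.Agent.H514R5
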